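import Pool.Agent.H74.MD.Main

/-!
# The multiset dimension of the cylinder graphs `C_n □ P_m`

We determine `mdim (C_n □ P_m)` for all `n ≥ 4` and all `m ≥ 1`.
-/

namespace Pool.Agent.Results.MP_f7c741_co.CylinderMultisetDimension

open SimpleGraph Pool.Agent.H74.MD

/-- The value of the multiset dimension of `C_n □ P_m` (for `n ≥ 4`, `m ≥ 1`):
* `∞` for `n ≤ 5`, `m ≤ 2`;
* `5` for the eleven pairs `(4,3), (4,4), (5,3), (5,4), (6,2), (6,3), (6,4), (6,5), (7,2), (7,3),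
  (7,5)`;
* `3` if `m = 1`, or `m` is odd, `n ≥ 6m` and `n ≠ 6m + 2`, or `m` is even, `n ≥ 6m - 1` and
  `n ≠ 6m + 1` (and `(n,m)` is not one of the pairs above);
* `4` in all other cases. -/
def value (n m : ℕ) : ℕ∞ :=
  if n ≤ 5 ∧ m ≤ 2 then ⊤
  else if (n = 4 ∧ (m = 3 ∨ m = 4)) ∨ (n = 5 ∧ (m = 3 ∨ m = 4)) ∨ (n = 6 ∧ 2 ≤ m ∧ m ≤ 5) ∨
    (n = 7 ∧ (m = 2 ∨ m = 3 ∨ m = 5)) then 5
  else if m = 1 ∨ (m % 2 = 1 ∧ 6 * m ≤ n ∧ n ≠ 6 * m + 2) ∨
    (m % 2 = 0 ∧ 6 * m ≤ n + 1 ∧ n ≠ 6 * m + 1) then 3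
  else 4

/-- The multiset dimension of every cylinder `C_n □ P_m` with `n ≥ 4` and `m ≥ 1`. -/
theorem result (n m : ℕ) (hn : 4 ≤ n) (hm : 1 ≤ m) :
    mdim ((cycleGraph n) □ (pathGraph m)) = value n m := by
  unfold value
  split_ifs with h1 h2 h3
  · exact mdim_inf hn hm h1.1 h1.2
  · exact mdim_exc h2
  · apply mdim_three hm (by omega)
    rcases h3 with h3 | h3 | h3
    · exact Or.inl h3
    · by_cases hm1 : m = 1
      · exact Or.inl hm1
      · right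
        unfold Fail
        omega
    · right
      unfold Fail
      omega
  · apply mdim_four hn (by omega)
    · unfold Fail
      omega
    · omega

end Pool.Agent.Results.MP_f7c741_co.CylinderMultisetDimension
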